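import Pool.Agent.TH99.WP.Mom

set_option autoImplicit false

open Finset Filter Topology

namespace Pool.Agent.TH99.WP

open Classical in
/-- the number of the primes `p ≤ y` with `p² ∣ (p-1)! x^(p-1) + 1` -/
noncomputable def cnt (x y : ℕ) : ℕ := ((range (y + 1)).filter fun p => p.Prime ∧ Wil x p).card

open Classical in
theorem main (a M : ℕ) (hM : 0 < M) (ε : ℝ) (hε : 0 < ε) : ∃ y₀ : ℕ, ∀ y N : ℕ, y₀ ≤ y →
    y ^ 4 ≤ N → (((range N).filter fun n => ε * L y < |(cnt (a + M * n) y : ℝ) - L y|).card : ℝ) ≤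
      ε * N := by
  have hsum : Summable (fun n : ℕ => 1 / (n : ℝ) ^ 2) :=
    Real.summable_one_div_nat_pow.2 (by norm_num)
  set C0 : ℝ := ∑' n : ℕ, 1 / (n : ℝ) ^ 2 with hC0
  have hC00 : 0 ≤ C0 := tsum_nonneg fun n => by positivity
  obtain ⟨y₀, hy₀⟩ := eventually_atTop.1
    (L_tendsto.eventually_ge_atTop (max 4 (max (8 / ε ^ 3) (2 * (C0 + 2 * M) / ε))))
  refine ⟨y₀, fun y N hy hN => ?_⟩
  have hL := hy₀ y hy
  have hL4 : 4 ≤ L y := (le_max_left _ _).trans hL
  have hLe : 8 / ε ^ 3 ≤ L y := ((le_max_left _ _).trans (le_max_right _ _)).trans hL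
  have hLc : 2 * (C0 + 2 * M) / ε ≤ L y := ((le_max_right _ _).trans (le_max_right _ _)).trans hL
  set Q := (range (y + 1)).filter fun p => p.Prime ∧ ¬ p ∣ M with hQdef
  have hQ : ∀ p ∈ Q, p.Prime ∧ ¬ p ∣ M := fun p hp => (mem_filter.1 hp).2
  have hmom := moment a M N Q hQ
  set μ := ∑ p ∈ Q, rho p with hμ
  set S := ∑ p ∈ Q, (p : ℝ) with hS
  have hμ0 : 0 ≤ μ := Finset.sum_nonneg fun p hp => rho_nonneg (hQ p hp).1
  have hQsub : Q ⊆ (range (y + 1)).filter Nat.Prime := by
    intro p hp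
    rw [mem_filter] at hp ⊢
    exact ⟨hp.1, hp.2.1⟩
  have hμL : μ ≤ L y := by
    calc μ ≤ ∑ p ∈ Q, 1 / (p : ℝ) := Finset.sum_le_sum fun p hp => rho_le (hQ p hp).1
      _ ≤ L y := Finset.sum_le_sum_of_subset_of_nonneg hQsub fun _ _ _ => by positivity
  have hQcard : Q.card ≤ y := by
    have h1 : Q ⊆ Finset.Icc 1 y := by
      intro p hp
      rw [mem_filter, mem_range] at hp
      rw [mem_Icc]
      exact ⟨hp.2.1.one_lt.le, by omega⟩
    simpa using Finset.card_le_card h1
  have hμy : μ ≤ y := by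
    calc μ ≤ ∑ p ∈ Q, (1 : ℝ) := by
          apply Finset.sum_le_sum
          intro p hp
          refine (rho_le (hQ p hp).1).trans ?_
          have : (1 : ℝ) ≤ p := by exact_mod_cast (hQ p hp).1.one_lt.le
          rw [div_le_one (by linarith)]
          exact this
      _ = Q.card := by simp
      _ ≤ y := by exact_mod_cast hQcard
  have hS0 : 0 ≤ S := Finset.sum_nonneg fun p _ => Nat.cast_nonneg _
  have hSy : S ≤ (y : ℝ) ^ 2 := by
    calc S ≤ ∑ p ∈ Q, (y : ℝ) := by
          apply Finset.sum_le_sum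
          intro p hp
          rw [mem_filter, mem_range] at hp
          exact_mod_cast (by omega : p ≤ y)
      _ = Q.card * (y : ℝ) := by simp
      _ ≤ y * y := by
          apply mul_le_mul_of_nonneg_right _ (Nat.cast_nonneg _)
          exact_mod_cast hQcard
      _ = (y : ℝ) ^ 2 := by ring
  -- the total
  have hNr : (y : ℝ) ^ 4 ≤ N := by exact_mod_cast hN
  have hyy : 0 ≤ (y : ℝ) := Nat.cast_nonneg _
  have hy1 : y = 0 ∨ (1 : ℝ) ≤ y := by
    rcases Nat.eq_zero_or_pos y with h | h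
    · exact Or.inl h
    · right; exact_mod_cast h
  have htot : ∑ n ∈ range N, (∑ p ∈ Q, ind a M p n - μ) ^ 2 ≤ N * (L y + 4) := by
    refine hmom.trans ?_
    have h1 : S ^ 2 ≤ (y : ℝ) ^ 4 := by
      calc S ^ 2 ≤ ((y : ℝ) ^ 2) ^ 2 := pow_le_pow_left₀ hS0 hSy 2
        _ = _ := by ring
    have h2 : S ≤ (y : ℝ) ^ 4 := by
      rcases hy1 with h | h
      · rw [h] at hSy ⊢
        simpa using hSy
      · refine hSy.trans (pow_le_pow_right₀ h (by norm_num))
    have h3 : μ * S ≤ (y : ℝ) ^ 4 := by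
      calc μ * S ≤ y * (y : ℝ) ^ 2 := mul_le_mul hμy hSy hS0 hyy
        _ = (y : ℝ) ^ 3 := by ring
        _ ≤ (y : ℝ) ^ 4 := by
            rcases hy1 with h | h
            · rw [h]; simp
            · exact pow_le_pow_right₀ h (by norm_num)
    have h4 : (N : ℝ) * μ ≤ N * L y := mul_le_mul_of_nonneg_left hμL (Nat.cast_nonneg _)
    nlinarith
  -- comparison
  have hLμ : L y - μ ≤ C0 + M := by
    have h1 : L y = ∑ p ∈ Q, 1 / (p : ℝ) +
        ∑ p ∈ (range (y + 1)).filter (fun p => p.Prime ∧ p ∣ M), 1 / (p : ℝ) := by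
      unfold L
      rw [hQdef, ← Finset.sum_filter_add_sum_filter_not ((range (y + 1)).filter Nat.Prime)
        (fun p => ¬ p ∣ M), Finset.filter_filter, Finset.filter_filter]
      congr 2
      ext p
      simp
    have h2 : ∑ p ∈ (range (y + 1)).filter (fun p => p.Prime ∧ p ∣ M), 1 / (p : ℝ) ≤ M := by
      calc ∑ p ∈ (range (y + 1)).filter (fun p => p.Prime ∧ p ∣ M), 1 / (p : ℝ)
          ≤ ∑ p ∈ (range (y + 1)).filter (fun p => p.Prime ∧ p ∣ M), (1 : ℝ) := by
            apply Finset.sum_le_sum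
            intro p hp
            have : (1 : ℝ) ≤ p := by exact_mod_cast (mem_filter.1 hp).2.1.one_lt.le
            rw [div_le_one (by linarith)]
            exact this
        _ = (((range (y + 1)).filter (fun p => p.Prime ∧ p ∣ M)).card : ℝ) := by simp
        _ ≤ M := by
            have h3 : (range (y + 1)).filter (fun p => p.Prime ∧ p ∣ M) ⊆ Finset.Icc 1 M := by
              intro p hp
              rw [mem_filter] at hp
              rw [mem_Icc]
              exact ⟨hp.2.1.one_lt.le, Nat.le_of_dvd hM hp.2.2⟩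
            have := Finset.card_le_card h3
            simp only [Nat.card_Icc, Nat.add_sub_cancel] at this
            exact_mod_cast this
    have h3 : ∑ p ∈ Q, 1 / (p : ℝ) - μ ≤ C0 := by
      rw [hμ, ← Finset.sum_sub_distrib]
      calc ∑ p ∈ Q, (1 / (p : ℝ) - rho p) = ∑ p ∈ Q, 1 / (p : ℝ) ^ 2 := by
            apply Finset.sum_congr rfl
            intro p hp
            have : (p : ℝ) ≠ 0 := by exact_mod_cast (hQ p hp).1.ne_zero
            unfold rho
            field_simp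
            ring
        _ ≤ C0 := hsum.sum_le_tsum _ fun n _ => by positivity
    linarith
  have hcnt : ∀ n, (cnt (a + M * n) y : ℝ) - ∑ p ∈ Q, ind a M p n ≤ M ∧
      0 ≤ (cnt (a + M * n) y : ℝ) - ∑ p ∈ Q, ind a M p n := by
    intro n
    have h1 : ∑ p ∈ Q, ind a M p n = ((Q.filter fun p => Wil (a + M * n) p).card : ℝ) := by
      rw [Finset.card_filter]
      push_cast
      rfl
    have h2 : cnt (a + M * n) y = (Q.filter fun p => Wil (a + M * n) p).card +
        ((range (y + 1)).filter fun p => (p.Prime ∧ Wil (a + M * n) p) ∧ p ∣ M).card := by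
      unfold cnt
      rw [← Finset.card_filter_add_card_filter_not (s := (range (y + 1)).filter
        fun p => p.Prime ∧ Wil (a + M * n) p) (fun p => ¬ p ∣ M), hQdef, Finset.filter_filter,
        Finset.filter_filter, Finset.filter_filter]
      congr 2
      · ext p
        simp only [mem_filter]
        tauto
      · ext p
        simp only [mem_filter, not_not]
    have h3 : ((range (y + 1)).filter fun p => (p.Prime ∧ Wil (a + M * n) p) ∧ p ∣ M).card ≤ M := by
      have h3 : ((range (y + 1)).filter fun p => (p.Prime ∧ Wil (a + M * n) p) ∧ p ∣ M) ⊆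
          Finset.Icc 1 M := by
        intro p hp
        rw [mem_filter] at hp
        rw [mem_Icc]
        exact ⟨hp.2.1.1.one_lt.le, Nat.le_of_dvd hM hp.2.2⟩
      have := Finset.card_le_card h3
      simpa using this
    rw [h1, h2]
    push_cast
    have h3' : (((range (y + 1)).filter fun p => (p.Prime ∧ Wil (a + M * n) p) ∧ p ∣ M).card : ℝ) ≤
      M := by exact_mod_cast h3
    constructor
    · linarith
    · have : (0 : ℝ) ≤ (((range (y + 1)).filter fun p =>
        (p.Prime ∧ Wil (a + M * n) p) ∧ p ∣ M).card : ℝ) := Nat.cast_nonneg _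
      linarith
  -- Chebyshev
  set B := (range N).filter fun n => ε * L y < |(cnt (a + M * n) y : ℝ) - L y| with hB
  have hL0 : 0 < L y := by linarith
  have hδ : 0 < ε * L y / 2 := by positivity
  have hlow : ∀ n ∈ B, (ε * L y / 2) ^ 2 ≤ (∑ p ∈ Q, ind a M p n - μ) ^ 2 := by
    intro n hn
    have h1 := (mem_filter.1 hn).2
    obtain ⟨h2, h3⟩ := hcnt n
    have h4 : C0 + 2 * M ≤ ε * L y / 2 := by
      rw [div_le_iff₀ hε] at hLc
      linarith
    have h5 : ε * L y / 2 ≤ |∑ p ∈ Q, ind a M p n - μ| := by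
      have h6 : |(cnt (a + M * n) y : ℝ) - L y| ≤ |∑ p ∈ Q, ind a M p n - μ| + (M + (C0 + M)) := by
        have e : (cnt (a + M * n) y : ℝ) - L y = (∑ p ∈ Q, ind a M p n - μ) +
          (((cnt (a + M * n) y : ℝ) - ∑ p ∈ Q, ind a M p n) - (L y - μ)) := by ring
        rw [e]
        refine (abs_add_le _ _).trans (add_le_add le_rfl ?_)
        have hM0 : (0 : ℝ) ≤ M := Nat.cast_nonneg _
        rw [abs_le]
        constructor <;> linarith
      linarith
    calc (ε * L y / 2) ^ 2 ≤ |∑ p ∈ Q, ind a M p n - μ| ^ 2 := pow_le_pow_left₀ hδ.le h5 2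
      _ = _ := sq_abs _
  have hcheb : (B.card : ℝ) * (ε * L y / 2) ^ 2 ≤ N * (L y + 4) := by
    calc (B.card : ℝ) * (ε * L y / 2) ^ 2 = ∑ n ∈ B, (ε * L y / 2) ^ 2 := by simp
      _ ≤ ∑ n ∈ B, (∑ p ∈ Q, ind a M p n - μ) ^ 2 := Finset.sum_le_sum hlow
      _ ≤ ∑ n ∈ range N, (∑ p ∈ Q, ind a M p n - μ) ^ 2 :=
          Finset.sum_le_sum_of_subset_of_nonneg (Finset.filter_subset _ _) fun _ _ _ => sq_nonneg _
      _ ≤ _ := htot
  have hfin : (N : ℝ) * (L y + 4) ≤ ε * N * (ε * L y / 2) ^ 2 := by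
    have h1 : 8 ≤ L y * ε ^ 3 := by
      rwa [div_le_iff₀ (by positivity)] at hLe
    have h2 : L y + 4 ≤ 2 * L y := by linarith
    have h3 : 2 * L y ≤ ε * (ε * L y / 2) ^ 2 := by
      have h4 : ε * (ε * L y / 2) ^ 2 = (L y * ε ^ 3) * L y / 4 := by ring
      rw [h4]
      nlinarith
    calc (N : ℝ) * (L y + 4) ≤ N * (ε * (ε * L y / 2) ^ 2) :=
          mul_le_mul_of_nonneg_left (h2.trans h3) (Nat.cast_nonneg _)
      _ = _ := by ring
  exact le_of_mul_le_mul_right (hcheb.trans hfin) (by positivity)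

open Classical in
theorem atLeast (a M : ℕ) (hM : 0 < M) (ε : ℝ) (hε : 0 < ε) (K : ℕ) : ∃ y N₀ : ℕ, ∀ N : ℕ, N₀ ≤ N →
    (((range N).filter fun n => cnt (a + M * n) y < K).card : ℝ) ≤ ε * N := by
  obtain ⟨y₀, h⟩ := main a M hM (min ε (1 / 2)) (by positivity)
  obtain ⟨y₁, h1⟩ := eventually_atTop.1 (L_tendsto.eventually_gt_atTop (2 * K : ℝ))
  refine ⟨max y₀ y₁, (max y₀ y₁) ^ 4, fun N hN => ?_⟩
  have h2 := h (max y₀ y₁) N (le_max_left _ _) hN
  have h3 := h1 (max y₀ y₁) (le_max_right _ _)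
  refine le_trans ?_ (h2.trans (mul_le_mul_of_nonneg_right (min_le_left _ _) (Nat.cast_nonneg _)))
  have h4 : ((range N).filter fun n => cnt (a + M * n) (max y₀ y₁) < K) ⊆
      (range N).filter fun n => min ε (1 / 2) * L (max y₀ y₁) <
        |(cnt (a + M * n) (max y₀ y₁) : ℝ) - L (max y₀ y₁)| := by
    intro n hn
    rw [mem_filter] at hn ⊢
    refine ⟨hn.1, ?_⟩
    have h5 : (cnt (a + M * n) (max y₀ y₁) : ℝ) < K := by exact_mod_cast hn.2
    have hK : (0 : ℝ) ≤ K := Nat.cast_nonneg _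
    rw [abs_sub_comm]
    refine lt_of_lt_of_le ?_ (le_abs_self _)
    have h6 : min ε (1 / 2) * L (max y₀ y₁) ≤ 1 / 2 * L (max y₀ y₁) :=
      mul_le_mul_of_nonneg_right (min_le_right _ _) (by linarith)
    linarith
  exact_mod_cast Finset.card_le_card h4

end Pool.Agent.TH99.WP
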