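import Pool.Agent.TH99.WP.Res

set_option autoImplicit false

open Finset Filter Topology

namespace Pool.Agent.TH99.WP

/-- `p² ∣ (p-1)! x^(p-1) + 1` -/
def Wil (x p : ℕ) : Prop := p ^ 2 ∣ (p - 1).factorial * x ^ (p - 1) + 1

open Classical in
theorem wil_iff (p a M n : ℕ) : Wil (a + M * n) p ↔
    ((p - 1).factorial : ZMod (p ^ 2)) * ((a : ZMod (p ^ 2)) + M * (n : ZMod (p ^ 2))) ^ (p - 1) + 1 = 0 := by
  unfold Wil
  rw [← ZMod.natCast_eq_zero_iff]
  push_cast
  rfl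

open Classical in
theorem single {p : ℕ} (hp : p.Prime) (a M : ℕ) (hM : ¬ p ∣ M) (N : ℕ) :
    |(((range N).filter fun n => Wil (a + M * n) p).card : ℝ) - N * (((p : ℝ) - 1) / p ^ 2)| ≤
      (p : ℝ) := by
  have := Fact.mk hp
  have h := count_pred (p ^ 2) (fun t : ZMod (p ^ 2) => ((p - 1).factorial : ZMod (p ^ 2)) *
    ((a : ZMod (p ^ 2)) + (M : ZMod (p ^ 2)) * t) ^ (p - 1) + 1 = 0) N
  rw [card_sol' a M hM] at h
  have e : ((range N).filter fun n => Wil (a + M * n) p) = (range N).filter fun n =>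
      ((p - 1).factorial : ZMod (p ^ 2)) * ((a : ZMod (p ^ 2)) + (M : ZMod (p ^ 2)) * ((n : ℕ) : ZMod (p ^ 2))) ^ (p - 1) + 1 = 0 :=
    Finset.filter_congr fun n _ => wil_iff p a M n
  rw [e]
  have hc : ((p - 1 : ℕ) : ℝ) = (p : ℝ) - 1 := by
    rw [Nat.cast_sub hp.one_lt.le, Nat.cast_one]
  rw [hc] at h
  push_cast at h
  have h2 : (N : ℝ) * ((p : ℝ) - 1) / (p : ℝ) ^ 2 = N * (((p : ℝ) - 1) / p ^ 2) := by ring
  rw [h2] at h
  linarith

open Classical in
theorem pair {p q : ℕ} (hp : p.Prime) (hq : q.Prime) (hpq : p ≠ q) (a M : ℕ) (hM : ¬ p ∣ M)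
    (hM' : ¬ q ∣ M) (N : ℕ) :
    (((range N).filter fun n => Wil (a + M * n) p ∧ Wil (a + M * n) q).card : ℝ) ≤
      N * ((((p : ℝ) - 1) / p ^ 2) * (((q : ℝ) - 1) / q ^ 2)) + p * q := by
  have := Fact.mk hp
  have := Fact.mk hq
  have hcop : Nat.Coprime (p ^ 2) (q ^ 2) := Nat.Coprime.pow _ _ ((Nat.coprime_primes hp hq).2 hpq)
  let e := ZMod.chineseRemainder hcop
  have : NeZero (p ^ 2 * q ^ 2) := ⟨mul_ne_zero (pow_ne_zero _ hp.ne_zero) (pow_ne_zero _ hq.ne_zero)⟩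
  have h := count_pred (p ^ 2 * q ^ 2) (fun t => (((p - 1).factorial : ZMod (p ^ 2)) *
    ((a : ZMod (p ^ 2)) + M * (e t).1) ^ (p - 1) + 1 = 0) ∧ (((q - 1).factorial : ZMod (q ^ 2)) *
    ((a : ZMod (q ^ 2)) + M * (e t).2) ^ (q - 1) + 1 = 0)) N
  have hcard : (univ.filter fun t : ZMod (p ^ 2 * q ^ 2) => (((p - 1).factorial : ZMod (p ^ 2)) *
    ((a : ZMod (p ^ 2)) + M * (e t).1) ^ (p - 1) + 1 = 0) ∧ (((q - 1).factorial : ZMod (q ^ 2)) *
    ((a : ZMod (q ^ 2)) + M * (e t).2) ^ (q - 1) + 1 = 0)).card = (p - 1) * (q - 1) := by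
    refine Eq.trans (Finset.card_equiv (t := (univ.filter fun t : ZMod (p ^ 2) =>
        ((p - 1).factorial : ZMod (p ^ 2)) * ((a : ZMod (p ^ 2)) + (M : ZMod (p ^ 2)) * t) ^ (p - 1) + 1 = 0) ×ˢ
        (univ.filter fun t : ZMod (q ^ 2) =>
        ((q - 1).factorial : ZMod (q ^ 2)) * ((a : ZMod (q ^ 2)) + (M : ZMod (q ^ 2)) * t) ^ (q - 1) + 1 = 0))
        e.toEquiv ?_) (by rw [Finset.card_product, card_sol' a M hM, card_sol' a M hM'])
    intro t
    rw [mem_product, mem_filter, mem_filter, mem_filter]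
    constructor
    · rintro ⟨-, h1, h2⟩
      exact ⟨⟨mem_univ _, h1⟩, ⟨mem_univ _, h2⟩⟩
    · rintro ⟨⟨-, h1⟩, ⟨-, h2⟩⟩
      exact ⟨mem_univ _, h1, h2⟩
  rw [hcard] at h
  have e1 : ((range N).filter fun n => Wil (a + M * n) p ∧ Wil (a + M * n) q) =
      (range N).filter fun n => (((p - 1).factorial : ZMod (p ^ 2)) *
    ((a : ZMod (p ^ 2)) + M * (e ((n : ℕ) : ZMod (p ^ 2 * q ^ 2))).1) ^ (p - 1) + 1 = 0) ∧
    (((q - 1).factorial : ZMod (q ^ 2)) *
    ((a : ZMod (q ^ 2)) + M * (e ((n : ℕ) : ZMod (p ^ 2 * q ^ 2))).2) ^ (q - 1) + 1 = 0) := by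
    apply Finset.filter_congr
    intro n _
    rw [wil_iff, wil_iff, map_natCast, Prod.fst_natCast, Prod.snd_natCast]
  rw [e1]
  have hc : ((p - 1 : ℕ) : ℝ) = (p : ℝ) - 1 := by
    rw [Nat.cast_sub hp.one_lt.le, Nat.cast_one]
  have hc' : ((q - 1 : ℕ) : ℝ) = (q : ℝ) - 1 := by
    rw [Nat.cast_sub hq.one_lt.le, Nat.cast_one]
  have h2 := (abs_le.1 h).2
  rw [Nat.cast_mul, hc, hc'] at h2
  have hp1 : (1 : ℝ) ≤ p := by exact_mod_cast hp.one_lt.le
  have hq1 : (1 : ℝ) ≤ q := by exact_mod_cast hq.one_lt.le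
  have h3 : (N : ℝ) * (((p : ℝ) - 1) * ((q : ℝ) - 1)) / ((p ^ 2 * q ^ 2 : ℕ) : ℝ) =
      N * ((((p : ℝ) - 1) / p ^ 2) * (((q : ℝ) - 1) / q ^ 2)) := by
    push_cast
    have h4 : (p : ℝ) ≠ 0 := by positivity
    have h5 : (q : ℝ) ≠ 0 := by positivity
    field_simp
  rw [h3] at h2
  nlinarith

/-- the density -/
noncomputable def rho (p : ℕ) : ℝ := ((p : ℝ) - 1) / p ^ 2

open Classical in
/-- the indicator -/
noncomputable def ind (a M p n : ℕ) : ℝ := if Wil (a + M * n) p then 1 else 0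

theorem rho_nonneg {p : ℕ} (hp : p.Prime) : 0 ≤ rho p := by
  have : (1 : ℝ) ≤ p := by exact_mod_cast hp.one_lt.le
  unfold rho
  apply div_nonneg (by linarith) (by positivity)

theorem rho_le {p : ℕ} (hp : p.Prime) : rho p ≤ 1 / p := by
  have : (1 : ℝ) ≤ p := by exact_mod_cast hp.one_lt.le
  unfold rho
  rw [div_le_div_iff₀ (by positivity) (by positivity)]
  nlinarith

theorem moment (a M N : ℕ) (Q : Finset ℕ) (hQ : ∀ p ∈ Q, p.Prime ∧ ¬ p ∣ M) :
    ∑ n ∈ range N, (∑ p ∈ Q, ind a M p n - ∑ p ∈ Q, rho p) ^ 2 ≤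
      N * ∑ p ∈ Q, rho p + (∑ p ∈ Q, (p : ℝ)) ^ 2 + ∑ p ∈ Q, (p : ℝ) +
        2 * (∑ p ∈ Q, rho p) * ∑ p ∈ Q, (p : ℝ) := by
  classical
  set μ := ∑ p ∈ Q, rho p with hμ
  set S := ∑ p ∈ Q, (p : ℝ) with hS
  have hμ0 : 0 ≤ μ := Finset.sum_nonneg fun p hp => rho_nonneg (hQ p hp).1
  have h1 : ∀ p ∈ Q, N * rho p - p ≤ ∑ n ∈ range N, ind a M p n ∧
      ∑ n ∈ range N, ind a M p n ≤ N * rho p + p := by
    intro p hp
    have e : ∑ n ∈ range N, ind a M p n = (((range N).filter fun n => Wil (a + M * n) p).card : ℝ) := by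
      unfold ind
      rw [Finset.sum_ite, Finset.sum_const_zero, add_zero, Finset.sum_const, nsmul_eq_mul, mul_one]
    have h := abs_le.1 (single (hQ p hp).1 a M (hQ p hp).2 N)
    rw [e]
    unfold rho
    constructor <;> linarith [h.1, h.2]
  have h2 : ∀ p ∈ Q, ∀ q ∈ Q, ∑ n ∈ range N, ind a M p n * ind a M q n ≤
      N * (rho p * rho q) + p * q + if p = q then N * rho p + p else 0 := by
    intro p hp q hq
    by_cases hpq : p = q
    · subst hpq
      rw [if_pos rfl]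
      have e : ∑ n ∈ range N, ind a M p n * ind a M p n = ∑ n ∈ range N, ind a M p n := by
        apply Finset.sum_congr rfl
        intro n _
        unfold ind
        split_ifs <;> simp
      rw [e]
      have h3 := (h1 p hp).2
      have h4 : 0 ≤ (N : ℝ) * (rho p * rho p) :=
        mul_nonneg (Nat.cast_nonneg _) (mul_self_nonneg _)
      have h5 : 0 ≤ (p : ℝ) * p := by positivity
      linarith
    · rw [if_neg hpq, add_zero]
      have e : ∑ n ∈ range N, ind a M p n * ind a M q n =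
          (((range N).filter fun n => Wil (a + M * n) p ∧ Wil (a + M * n) q).card : ℝ) := by
        rw [Finset.card_filter]
        push_cast
        apply Finset.sum_congr rfl
        intro n _
        unfold ind
        by_cases ha : Wil (a + M * n) p <;> by_cases hb : Wil (a + M * n) q <;> simp [ha, hb]
      rw [e]
      exact pair (hQ p hp).1 (hQ q hq).1 hpq a M (hQ p hp).2 (hQ q hq).2 N
  have h3 : ∑ n ∈ range N, (∑ p ∈ Q, ind a M p n) ^ 2 ≤ N * μ ^ 2 + S ^ 2 + N * μ + S := by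
    have e : ∑ n ∈ range N, (∑ p ∈ Q, ind a M p n) ^ 2 =
        ∑ p ∈ Q, ∑ q ∈ Q, ∑ n ∈ range N, ind a M p n * ind a M q n := by
      simp only [sq, Finset.sum_mul_sum]
      rw [Finset.sum_comm]
      apply Finset.sum_congr rfl
      intro p _
      rw [Finset.sum_comm]
    rw [e]
    calc ∑ p ∈ Q, ∑ q ∈ Q, ∑ n ∈ range N, ind a M p n * ind a M q n
        ≤ ∑ p ∈ Q, ∑ q ∈ Q, (N * (rho p * rho q) + p * q + if p = q then N * rho p + p else 0) :=
          Finset.sum_le_sum fun p hp => Finset.sum_le_sum fun q hq => h2 p hp q hq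
      _ = N * μ ^ 2 + S ^ 2 + N * μ + S := by
          simp only [Finset.sum_add_distrib]
          have e1 : ∑ p ∈ Q, ∑ q ∈ Q, (N : ℝ) * (rho p * rho q) = N * μ ^ 2 := by
            rw [sq, hμ, Finset.sum_mul_sum, Finset.mul_sum]
            apply Finset.sum_congr rfl
            intro p _
            rw [Finset.mul_sum]
          have e2 : ∑ p ∈ Q, ∑ q ∈ Q, ((p : ℝ) * q) = S ^ 2 := by
            rw [sq, hS, Finset.sum_mul_sum]
          have e3 : ∑ p ∈ Q, ∑ q ∈ Q, (if p = q then (N : ℝ) * rho p + p else 0) = N * μ + S := by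
            rw [hμ, hS, Finset.mul_sum, ← Finset.sum_add_distrib]
            apply Finset.sum_congr rfl
            intro p hp
            rw [Finset.sum_ite_eq, if_pos hp]
          rw [e1, e2, e3]
          ring
  have h4 : N * μ - S ≤ ∑ n ∈ range N, ∑ p ∈ Q, ind a M p n := by
    rw [Finset.sum_comm, hμ, hS, Finset.mul_sum, ← Finset.sum_sub_distrib]
    exact Finset.sum_le_sum fun p hp => (h1 p hp).1
  have h5 : ∑ n ∈ range N, (∑ p ∈ Q, ind a M p n - μ) ^ 2 =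
      ∑ n ∈ range N, (∑ p ∈ Q, ind a M p n) ^ 2 - 2 * μ * (∑ n ∈ range N, ∑ p ∈ Q, ind a M p n) +
        N * μ ^ 2 := by
    simp only [sub_sq, Finset.sum_add_distrib, Finset.sum_sub_distrib, Finset.sum_const,
      Finset.card_range, nsmul_eq_mul]
    rw [Finset.mul_sum]
    congr 2
    apply Finset.sum_congr rfl
    intro n _
    ring
  rw [h5]
  nlinarith [mul_le_mul_of_nonneg_left h4 (by positivity : (0 : ℝ) ≤ 2 * μ)]

/-- the sum of the reciprocals of the primes up to `y` -/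
noncomputable def L (y : ℕ) : ℝ := ∑ p ∈ (range (y + 1)).filter Nat.Prime, 1 / (p : ℝ)

theorem L_tendsto : Tendsto L atTop atTop := by
  have h := (not_summable_iff_tendsto_nat_atTop_of_nonneg (f := Set.indicator {p : ℕ | p.Prime}
    (fun n : ℕ => (1 : ℝ) / n)) (fun n => by
      apply Set.indicator_nonneg
      intro n _
      positivity)).1 not_summable_one_div_on_primes
  have h2 := h.comp (tendsto_add_atTop_nat 1)
  refine h2.congr fun y => ?_
  unfold L
  simp only [Function.comp]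
  rw [Finset.sum_filter]
  apply Finset.sum_congr rfl
  intro n _
  rw [Set.indicator_apply]
  rfl

end Pool.Agent.TH99.WP
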