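import Mathlib

set_option autoImplicit false
set_option linter.unusedSectionVars false

open Finset

namespace Pool.Agent.TH99.WP

section
variable {p : ℕ} [hp : Fact p.Prime]

instance inst0 : NeZero (p ^ 2) := ⟨pow_ne_zero _ hp.out.ne_zero⟩

theorem dvd2 : p ∣ p ^ 2 := dvd_pow_self p two_ne_zero

/-- reduction modulo `p` -/
noncomputable def red (p : ℕ) [Fact p.Prime] : (ZMod (p ^ 2))ˣ →* (ZMod p)ˣ := ZMod.unitsMap dvd2

theorem pow_p_eq_one {k : (ZMod (p ^ 2))ˣ} (h : red p k = 1) : k ^ p = 1 := by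
  apply Units.ext
  rw [Units.val_pow_eq_pow_val, Units.val_one]
  obtain ⟨z, hz⟩ := ZMod.intCast_surjective (k : ZMod (p ^ 2))
  have h1 : ((z : ℤ) : ZMod p) = 1 := by
    have h2 := congrArg Units.val h
    unfold red at h2
    rw [ZMod.unitsMap_val, Units.val_one] at h2
    rw [← hz] at h2
    rw [ZMod.cast_intCast dvd2] at h2
    exact h2
  have h2 : (p : ℤ) ∣ z - 1 := by
    rw [← ZMod.intCast_zmod_eq_zero_iff_dvd]
    push_cast
    rw [h1, sub_self]
  have h3 := dvd_sub_pow_of_dvd_sub (R := ℤ) (p := p) (a := z) (b := 1) (by exact_mod_cast h2) 1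
  rw [← hz]
  have h4 : (((z ^ p - 1 : ℤ)) : ZMod (p ^ 2)) = 0 := by
    rw [ZMod.intCast_zmod_eq_zero_iff_dvd]
    simpa using h3
  push_cast at h4
  exact sub_eq_zero.1 h4

theorem card_roots : (univ.filter fun w : (ZMod (p ^ 2))ˣ => w ^ (p - 1) = 1).card = p - 1 := by
  have hp1 : 1 ≤ p := hp.out.one_lt.le
  have hc : (univ : Finset (ZMod p)ˣ).card = p - 1 := by
    rw [Finset.card_univ, ZMod.card_units_eq_totient, Nat.totient_prime hp.out]
  refine Eq.trans (Finset.card_bij (fun w _ => red p w) ?_ ?_ ?_) hc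
  · intro w _; exact mem_univ _
  · intro w hw w' hw' h
    rw [mem_filter] at hw hw'
    have h1 : red p (w * w'⁻¹) = 1 := by
      rw [map_mul, map_inv, h, mul_inv_cancel]
    have h2 := pow_p_eq_one h1
    have h3 : (w * w'⁻¹) ^ (p - 1) = 1 := by
      rw [mul_pow, inv_pow, hw.2, hw'.2, inv_one, mul_one]
    have h4 : w * w'⁻¹ = 1 := by
      have h5 : (w * w'⁻¹) ^ p = (w * w'⁻¹) ^ (p - 1) * (w * w'⁻¹) := by
        rw [← pow_succ, Nat.sub_add_cancel hp1]
      rw [h2, h3, one_mul] at h5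
      exact h5.symm
    exact mul_inv_eq_one.1 h4
  · intro r _
    obtain ⟨v, hv⟩ := ZMod.unitsMap_surjective (dvd2 (p := p)) r
    refine ⟨v ^ p, ?_, ?_⟩
    · rw [mem_filter]
      refine ⟨mem_univ _, ?_⟩
      rw [← pow_mul]
      have h1 : Nat.totient (p ^ 2) = p * (p - 1) := by
        rw [Nat.totient_prime_pow hp.out (by norm_num)]
        simp
      rw [← h1]
      exact ZMod.pow_totient v
    · show red p (v ^ p) = r
      have h1 : red p v = r := hv
      rw [map_pow, h1]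
      have h2 : r ^ (p - 1) = 1 := ZMod.units_pow_card_sub_one_eq_one p r
      calc r ^ p = r ^ (p - 1) * r := by rw [← pow_succ, Nat.sub_add_cancel hp1]
        _ = r := by rw [h2, one_mul]

theorem card_sol : ((univ : Finset (ZMod (p ^ 2))).filter fun u =>
    ((p - 1).factorial : ZMod (p ^ 2)) * u ^ (p - 1) + 1 = 0).card = p - 1 := by
  have hp1 : 1 ≤ p := hp.out.one_lt.le
  have hpos : p - 1 ≠ 0 := by have := hp.out.two_le; omega
  have hcop : Nat.Coprime (p - 1).factorial (p ^ 2) := by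
    apply Nat.Coprime.pow_right
    rw [Nat.coprime_comm, Nat.Prime.coprime_iff_not_dvd hp.out, hp.out.dvd_factorial]
    omega
  obtain ⟨F, hF⟩ : ∃ F : (ZMod (p ^ 2))ˣ, (F : ZMod (p ^ 2)) = ((p - 1).factorial : ZMod (p ^ 2)) :=
    ⟨ZMod.unitOfCoprime _ hcop, ZMod.coe_unitOfCoprime _ _⟩
  obtain ⟨c, hc⟩ : ∃ c : (ZMod (p ^ 2))ˣ, c = -F⁻¹ := ⟨_, rfl⟩
  have hFc : F * c = -1 := by rw [hc, mul_neg, mul_inv_cancel]
  have hredF : red p F = -1 := by
    apply Units.ext
    unfold red
    rw [ZMod.unitsMap_val, hF, ZMod.cast_natCast dvd2, ZMod.wilsons_lemma]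
    simp
  have hredm : red p (-1) = -1 := by
    apply Units.ext
    unfold red
    rw [ZMod.unitsMap_val, Units.val_neg, Units.val_one, Units.val_neg, Units.val_one]
    rw [ZMod.cast_neg dvd2, ZMod.cast_one dvd2]
  have hredc : red p c = 1 := by
    have h := congrArg (red p) hFc
    rw [map_mul, hredF, hredm] at h
    have h2 : (-1 : (ZMod p)ˣ) * red p c = (-1) * 1 := by rw [h, mul_one]
    exact mul_left_cancel h2
  have hcp := pow_p_eq_one hredc
  have hcp' : c ^ (p - 1) * c = 1 := by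
    rw [← pow_succ, Nat.sub_add_cancel hp1, hcp]
  have hcinv : (c⁻¹) ^ (p - 1) = c := by
    rw [inv_pow]
    exact inv_eq_of_mul_eq_one_right hcp'
  refine Eq.trans (Eq.symm (Finset.card_bij
    (fun w _ => ((w * c⁻¹ : (ZMod (p ^ 2))ˣ) : ZMod (p ^ 2))) ?_ ?_ ?_)) (card_roots (p := p))
  · intro w hw
    rw [mem_filter] at hw ⊢
    refine ⟨mem_univ _, ?_⟩
    rw [← hF, ← Units.val_pow_eq_pow_val, mul_pow, hw.2, one_mul, hcinv, ← Units.val_mul, hFc]
    simp
  · intro w _ w' _ h
    exact mul_right_cancel (Units.ext h)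
  · intro u hu
    rw [mem_filter] at hu
    have hu2 := hu.2
    have hunit : IsUnit u := by
      have h1 : ((p - 1).factorial : ZMod (p ^ 2)) * u ^ (p - 1) = -1 := by
        linear_combination hu2
      have h2 : IsUnit (((p - 1).factorial : ZMod (p ^ 2)) * u ^ (p - 1)) := by
        rw [h1]; exact isUnit_one.neg
      exact (isUnit_pow_iff hpos).1 (isUnit_of_mul_isUnit_right h2)
    obtain ⟨v, rfl⟩ := hunit
    have h3 : F * v ^ (p - 1) = -1 := by
      apply Units.ext
      rw [Units.val_mul, Units.val_pow_eq_pow_val, hF, Units.val_neg, Units.val_one]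
      linear_combination hu2
    have h4 : v ^ (p - 1) = c := by
      have h5 : F * v ^ (p - 1) = F * c := by rw [h3, hFc]
      exact mul_left_cancel h5
    refine ⟨v * c, ?_, ?_⟩
    · rw [mem_filter]
      refine ⟨mem_univ _, ?_⟩
      rw [mul_pow, h4, mul_comm, hcp']
    · rw [mul_inv_cancel_right]

/-- with a unit `M` and a shift -/
theorem card_sol' (a M : ℕ) (hM : ¬ p ∣ M) : ((univ : Finset (ZMod (p ^ 2))).filter fun t =>
    ((p - 1).factorial : ZMod (p ^ 2)) * ((a : ZMod (p ^ 2)) + M * t) ^ (p - 1) + 1 = 0).card =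
      p - 1 := by
  have hcop : Nat.Coprime M (p ^ 2) := by
    apply Nat.Coprime.pow_right
    rw [Nat.coprime_comm, Nat.Prime.coprime_iff_not_dvd hp.out]
    exact hM
  obtain ⟨U, hU⟩ : ∃ U : (ZMod (p ^ 2))ˣ, (U : ZMod (p ^ 2)) = (M : ZMod (p ^ 2)) :=
    ⟨ZMod.unitOfCoprime _ hcop, ZMod.coe_unitOfCoprime _ _⟩
  refine Eq.trans (Finset.card_bij (fun t _ => (a : ZMod (p ^ 2)) + M * t) ?_ ?_ ?_)
    (card_sol (p := p))
  · intro t ht
    rw [mem_filter] at ht ⊢
    exact ⟨mem_univ _, ht.2⟩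
  · intro t _ t' _ h
    have h1 : (M : ZMod (p ^ 2)) * t = M * t' := add_left_cancel h
    rw [← hU] at h1
    exact (Units.mul_right_inj U).1 h1
  · intro u hu
    rw [mem_filter] at hu
    have e : (a : ZMod (p ^ 2)) + M * (((U⁻¹ : (ZMod (p ^ 2))ˣ) : ZMod (p ^ 2)) * (u - a)) = u := by
      rw [← hU, Units.mul_inv_cancel_left]
      ring
    refine ⟨((U⁻¹ : (ZMod (p ^ 2))ˣ) : ZMod (p ^ 2)) * (u - a), ?_, e⟩
    rw [mem_filter, e]
    exact ⟨mem_univ _, hu.2⟩

end

/-! ## Counting in residue classes -/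

theorem count_class (m : ℕ) [NeZero m] (t : ZMod m) (N : ℕ) :
    |(((range N).filter fun n => ((n : ℕ) : ZMod m) = t).card : ℝ) - N / m| ≤ 1 := by
  have hm : 0 < m := Nat.pos_of_ne_zero (NeZero.ne m)
  have h1 : ((range N).filter fun n => ((n : ℕ) : ZMod m) = t).card =
      Nat.count (fun n => n ≡ t.val [MOD m]) N := by
    rw [Nat.count_eq_card_filter_range]
    congr 1
    apply Finset.filter_congr
    intro n _
    rw [← ZMod.natCast_eq_natCast_iff, ZMod.natCast_zmod_val]
  rw [h1, Nat.count_modEq_card N hm]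
  have h2 : (N : ℝ) / m = ((N / m : ℕ) : ℝ) + ((N % m : ℕ) : ℝ) / m := by
    have h3 : (N : ℝ) = m * (N / m : ℕ) + (N % m : ℕ) := by
      exact_mod_cast (Nat.div_add_mod N m).symm
    have hm' : (m : ℝ) ≠ 0 := by exact_mod_cast hm.ne'
    field_simp
    linarith
  have h4 : (0 : ℝ) ≤ ((N % m : ℕ) : ℝ) / m := by positivity
  have h5 : ((N % m : ℕ) : ℝ) / m ≤ 1 := by
    rw [div_le_one (by exact_mod_cast hm)]
    exact_mod_cast (Nat.mod_lt N hm).le
  rw [h2]
  push_cast
  split_ifs <;> push_cast <;> rw [abs_le] <;> constructor <;> linarith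

theorem count_pred (m : ℕ) [NeZero m] (P : ZMod m → Prop) [DecidablePred P] (N : ℕ) :
    |(((range N).filter fun n => P ((n : ℕ) : ZMod m)).card : ℝ) -
      N * ((univ.filter P).card : ℝ) / m| ≤ ((univ.filter P).card : ℝ) := by
  have h1 : ((range N).filter fun n => P ((n : ℕ) : ZMod m)).card =
      ∑ t ∈ univ.filter P, ((range N).filter fun n => ((n : ℕ) : ZMod m) = t).card := by
    rw [Finset.card_eq_sum_card_fiberwise (f := fun n : ℕ => ((n : ℕ) : ZMod m))
      (t := univ.filter P)]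
    · apply Finset.sum_congr rfl
      intro t ht
      rw [Finset.filter_filter]
      congr 1
      apply Finset.filter_congr
      intro n _
      constructor
      · exact fun h => h.2
      · intro h
        rw [mem_filter] at ht
        exact ⟨by rw [h]; exact ht.2, h⟩
    · intro n hn
      rw [Finset.mem_coe, mem_filter] at hn ⊢
      exact ⟨mem_univ _, hn.2⟩
  rw [h1]
  push_cast
  have h2 : (N : ℝ) * ((univ.filter P).card : ℝ) / m = ∑ t ∈ univ.filter P, (N : ℝ) / m := by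
    rw [Finset.sum_const, nsmul_eq_mul]
    ring
  rw [h2, ← Finset.sum_sub_distrib]
  calc |∑ t ∈ univ.filter P, ((((range N).filter fun n => ((n : ℕ) : ZMod m) = t).card : ℝ) -
        (N : ℝ) / m)| ≤ ∑ t ∈ univ.filter P,
        |((((range N).filter fun n => ((n : ℕ) : ZMod m) = t).card : ℝ) - (N : ℝ) / m)| :=
        Finset.abs_sum_le_sum_abs _ _
    _ ≤ ∑ t ∈ univ.filter P, (1 : ℝ) := Finset.sum_le_sum fun t _ => count_class m t N
    _ = _ := by simp

end Pool.Agent.TH99.WP
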